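import Pool.Agent.N879.PZ.Sml
import Pool.Agent.N879.PZ.Asm2

set_option autoImplicit false

/-! Project PZ (`Pool.Agent.N879.PZ`): the statement `S_LED`, the leading term of the model. -/

namespace Pool.Agent.W2helper63.PZ

open Complex Filter Topology MeasureTheory Set
open Pool.Agent.Y969.GP (ff V V1 ht lam PS FR co cr PX mk mB)
open Pool.Agent.Y969.SM (ff_cont mB_int)
open Pool.Agent.N879.PZ
open Pool.Agent.N879.PZ.Smlaux (ff_nonneg nff cs_int log_one one_le_a wcont ff_Wb)

noncomputable section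

/-- telescoping product -/
lemma tele : ∀ (n : ℕ) (f g : Fin n → ℂ), ∏ j, f j - ∏ j, g j =
    ∑ i, ∏ j, (if j < i then f j else if j = i then f j - g j else g j) := by
  intro n
  induction n with
  | zero => intro f g; simp
  | succ n ih =>
    intro f g
    rw [Fin.prod_univ_succ, Fin.prod_univ_succ, Fin.sum_univ_succ]
    have h0 : ∏ j : Fin (n + 1), (if j < 0 then f j else if j = 0 then f j - g j else g j) =
        (f 0 - g 0) * ∏ j : Fin n, g j.succ := by
      rw [Fin.prod_univ_succ]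
      simp
    have h1 : ∀ i : Fin n, ∏ j : Fin (n + 1), (if j < i.succ then f j else if j = i.succ then f j - g j else g j) =
        f 0 * ∏ j : Fin n, (if j < i then f j.succ else if j = i then f j.succ - g j.succ else g j.succ) := by
      intro i
      rw [Fin.prod_univ_succ]
      simp
    rw [h0]
    simp only [h1]
    rw [← Finset.mul_sum, ← ih (fun j => f j.succ) (fun j => g j.succ)]
    ring

/-- the factors of the telescoping product -/
def hh {n : ℕ} (T : ℝ) (N : ℕ) (i j : Fin n) (u : ℝ) : ℂ :=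
  if j < i then DN N u else if j = i then DN N u - (Real.log T : ℂ) * P1 N u else (Real.log T : ℂ) * P1 N u

lemma hh_cont {n : ℕ} (T : ℝ) (N : ℕ) (i j : Fin n) : Continuous (hh T N i j) := by
  unfold hh
  have h1 := DN_cont N
  have h2 := P1_cont N
  split_ifs
  · exact h1
  · exact h1.sub (continuous_const.mul h2)
  · exact continuous_const.mul h2

/-- the mean square of zeta -/
lemma ff_int (h : S_TW) : ∃ C : ℝ, 0 < C ∧ ∀ T a : ℝ, 3 ≤ T → T ^ (7 / 8 : ℝ) ≤ a → a ≤ T →
    ∫ t in Icc a T, ff t ≤ C * (T * Real.log T) := by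
  obtain ⟨C, hC, h⟩ := h
  refine ⟨1 + 3 * C, by positivity, fun T a hT ha haT => ?_⟩
  have h1 := h T a (1, 1) hT ha haT le_rfl le_rfl (Nat.coprime_one_left 1) (by
    unfold Pool.Agent.Y969.GP.ht
    simp only [Nat.cast_one, mul_one]
    exact Real.one_le_rpow (by linarith) (by norm_num))
  have hht : ht ((1, 1) : ℕ × ℕ) = 1 := by
    unfold Pool.Agent.Y969.GP.ht
    simp
  have hee : ∀ t : ℝ, ee t ((1, 1) : ℕ × ℕ) = 1 := by
    intro t
    unfold ee Pool.Agent.Y969.GP.lam
    simp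
  simp only [hht, hee, mul_one, Real.sqrt_one, inv_one, Real.log_one, add_zero] at h1
  have hL := log_one hT
  have hT0 : (0 : ℝ) < T := by linarith
  have ha0 : 0 < a := lt_of_lt_of_le (Real.rpow_pos_of_pos hT0 _) ha
  rw [intervalIntegral.integral_ofReal, ← Complex.ofReal_sub, Complex.norm_real, Real.norm_eq_abs] at h1
  have h2 := (abs_le.1 h1).2
  rw [intervalIntegral.integral_of_le haT, ← integral_Icc_eq_integral_Ioc] at h2
  have h3 : a / T ≤ 1 := (div_le_one hT0).2 haT
  have h4 : T ^ (15 / 16 : ℝ) ≤ T := by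
    calc T ^ (15 / 16 : ℝ) ≤ T ^ (1 : ℝ) := Real.rpow_le_rpow_of_exponent_le (by linarith) (by norm_num)
      _ = T := Real.rpow_one T
  have h5 : T * 1 ≤ T * Real.log T := by gcongr
  have h6 : C * T * (1 + a / T * Real.log T) ≤ C * T * (1 + 1 * Real.log T) := by gcongr
  have h7 : C * T ^ (15 / 16 : ℝ) ≤ C * T := by gcongr
  have h8 : C * T ≤ C * (T * Real.log T) := by nlinarith
  nlinarith

/-- LED -/
theorem t_LED (h1 : S_FUB) (h2 : S_CTG) (h3 : S_WIN) (h4 : S_TW) : S_LED := by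
  intro n
  obtain ⟨C1, hC1, hW⟩ := h3
  obtain ⟨C2, hC2, hF⟩ := ff_int h4
  refine ⟨(n + 1) * (C2 * √C1 ^ n), by positivity, ?_⟩
  intro T U a N hP
  have hWN := hW T U a N hP
  obtain ⟨hT, hU, -, ha, haT, hN1, -, -⟩ := hP
  have ha1 := one_le_a hT ha
  have hL := log_one hT
  have hU0 : 0 < U := by linarith
  have hT0 : 0 < T := by linarith
  have hNL0 : 0 ≤ Real.log N := Real.log_natCast_nonneg N
  have hTa : 0 ≤ Real.log (T / a) := Real.log_nonneg (by rw [le_div_iff₀ (by linarith)]; linarith)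
  set L := Real.log T with hLdef
  set l := 1 + Real.log N with hldef
  set r := 1 + Real.log (T / a) with hrdef
  have hl1 : 1 ≤ l := by linarith
  have hr1 : 1 ≤ r := by linarith
  -- the bounds of the windows
  have hs := Real.sq_sqrt hC1.le
  have b1 : ∀ t ∈ Icc a T, ∫ c in (0:ℝ)..U, ‖DN N (t + c)‖ ≤ U * (√C1 * l ^ 2 * L) := by
    intro t ht
    refine cs_int hU0.le (f := fun c => ‖DN N (t + c)‖) ((DN_cont N).comp (by fun_prop)).norm (by positivity) ?_
    refine (hWN t ht.1 ht.2).2.1.trans (le_of_eq ?_)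
    calc C1 * U * l ^ 4 * L ^ 2 = (√C1) ^ 2 * U * l ^ 4 * L ^ 2 := by rw [hs]
      _ = U * (√C1 * l ^ 2 * L) ^ 2 := by ring
  have b2 : ∀ t ∈ Icc a T, ∫ c in (0:ℝ)..U, ‖DN N (t + c) - (L : ℂ) * P1 N (t + c)‖ ≤ U * (√C1 * l ^ 2 * r) := by
    intro t ht
    refine cs_int hU0.le (f := fun c => ‖DN N (t + c) - (L : ℂ) * P1 N (t + c)‖)
      (((DN_cont N).comp (by fun_prop)).sub (continuous_const.mul ((P1_cont N).comp (by fun_prop)))).norm
      (by positivity) ?_
    refine (hWN t ht.1 ht.2).2.2.trans (le_of_eq ?_)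
    calc C1 * U * l ^ 4 * r ^ 2 = (√C1) ^ 2 * U * l ^ 4 * r ^ 2 := by rw [hs]
      _ = U * (√C1 * l ^ 2 * r) ^ 2 := by ring
  have b3 : ∀ t ∈ Icc a T, ∫ c in (0:ℝ)..U, ‖(L : ℂ) * P1 N (t + c)‖ ≤ U * (√C1 * l ^ 2 * L) := by
    intro t ht
    refine cs_int hU0.le (f := fun c => ‖(L : ℂ) * P1 N (t + c)‖)
      (continuous_const.mul ((P1_cont N).comp (by fun_prop))).norm (by positivity) ?_
    have e1 : ∀ c : ℝ, ‖(L : ℂ) * P1 N (t + c)‖ ^ 2 = L ^ 2 * ‖P1 N (t + c)‖ ^ 2 := by
      intro c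
      rw [norm_mul, mul_pow, Complex.norm_real, Real.norm_eq_abs, sq_abs]
    simp only [e1]
    rw [intervalIntegral.integral_const_mul]
    have h5 := (hWN t ht.1 ht.2).1
    have h6 : l ^ 2 ≤ l ^ 4 := pow_le_pow_right₀ hl1 (by norm_num)
    calc L ^ 2 * ∫ c in (0:ℝ)..U, ‖P1 N (t + c)‖ ^ 2 ≤ L ^ 2 * (C1 * U * l ^ 2) := by gcongr
      _ ≤ L ^ 2 * (C1 * U * l ^ 4) := by gcongr
      _ = L ^ 2 * ((√C1) ^ 2 * U * l ^ 4) := by rw [hs]
      _ = U * (√C1 * l ^ 2 * L) ^ 2 := by ring
  -- the bound for one term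
  have key : ∀ i : Fin n, ∫ c, ‖∫ t in Icc a T, (ff t : ℂ) * ∏ j : Fin n, hh T N i j (t + c j)‖ ∂(mB n 0 U) ≤
      C2 * √C1 ^ n * (l ^ (2 * n) * r * L ^ n * T * U ^ n) := by
    intro i
    refine (h1 n a T U (Icc a T) (fun t => (ff t : ℂ)) (hh T N i) haT hU0 measurableSet_Icc (Subset.refl _)
      (ff_Wb a T) (hh_cont T N i)).trans ?_
    have hb : ∀ t ∈ Icc a T, ∀ j : Fin n, ∫ c in (0:ℝ)..U, ‖hh T N i j (t + c)‖ ≤
        U * (√C1 * l ^ 2) * (if j = i then r else L) := by
      intro t ht j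
      unfold hh
      by_cases hji : j < i
      · have hne : ¬ j = i := fun h => by rw [h] at hji; exact lt_irrefl _ hji
        simp only [hji, if_true, hne, if_false]
        refine (b1 t ht).trans (le_of_eq (by ring))
      · by_cases hj : j = i
        · simp only [hji, if_false, hj, lt_irrefl, if_true]
          refine (b2 t ht).trans (le_of_eq (by ring))
        · simp only [hji, if_false, hj]
          refine (b3 t ht).trans (le_of_eq (by ring))
    have hprod : ∏ j : Fin n, (U * (√C1 * l ^ 2) * (if j = i then r else L)) =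
        (U * (√C1 * l ^ 2)) ^ n * (r * L ^ (n - 1)) := by
      rw [Finset.prod_mul_distrib, Finset.prod_const, Finset.card_univ, Fintype.card_fin, Finset.prod_ite]
      congr 1
      have e2 : Finset.univ.filter (fun j : Fin n => j = i) = {i} := by ext; simp
      have e3 : (Finset.univ.filter (fun j : Fin n => ¬ j = i)).card = n - 1 := by
        have : Finset.univ.filter (fun j : Fin n => ¬ j = i) = Finset.univ.erase i := by
          ext; simp
        rw [this, Finset.card_erase_of_mem (Finset.mem_univ _), Finset.card_univ, Fintype.card_fin]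
      rw [e2, Finset.prod_singleton, Finset.prod_const, e3]
    have hint : ∫ t in Icc a T, ‖(ff t : ℂ)‖ * ∏ j : Fin n, ∫ c in (0:ℝ)..U, ‖hh T N i j (t + c)‖ ≤
        ∫ t in Icc a T, ff t * ((U * (√C1 * l ^ 2)) ^ n * (r * L ^ (n - 1))) := by
      refine setIntegral_mono_on ?_ ?_ measurableSet_Icc fun t ht => ?_
      · have h2 : Continuous fun t : ℝ => ‖(ff t : ℂ)‖ * ∏ j : Fin n, ∫ c in (0:ℝ)..U, ‖hh T N i j (t + c)‖ :=
          (Complex.continuous_ofReal.comp ff_cont).norm.mul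
            (continuous_finsetProd _ fun j _ => wcont (hh_cont T N i j) U)
        exact h2.integrableOn_Icc
      · exact (ff_cont.mul continuous_const).integrableOn_Icc
      · rw [nff, ← hprod]
        refine mul_le_mul_of_nonneg_left ?_ (ff_nonneg t)
        exact Finset.prod_le_prod (fun j _ => intervalIntegral.integral_nonneg hU0.le fun c _ => norm_nonneg _)
          fun j _ => hb t ht j
    refine hint.trans ?_
    rw [integral_mul_const]
    have hpos : 0 ≤ (U * (√C1 * l ^ 2)) ^ n * (r * L ^ (n - 1)) := by positivity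
    refine (mul_le_mul_of_nonneg_right (hF T a hT ha haT) hpos).trans (le_of_eq ?_)
    have hn : n - 1 + 1 = n := by
      have := i.pos
      omega
    calc C2 * (T * L) * ((U * (√C1 * l ^ 2)) ^ n * (r * L ^ (n - 1))) =
        C2 * T * ((U * (√C1 * l ^ 2)) ^ n * (r * L ^ (n - 1 + 1))) := by rw [pow_succ]; ring
      _ = _ := by
        rw [hn, mul_pow, mul_pow, ← pow_mul]
        ring
  -- the sum of the terms
  have hdec : ∀ c : Fin n → ℝ, ∫ t in Icc a T, (ff t : ℂ) * (∏ j : Fin n, DN N (t + c j) -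
      ∏ j : Fin n, ((L : ℂ) * P1 N (t + c j))) =
      ∑ i, ∫ t in Icc a T, (ff t : ℂ) * ∏ j : Fin n, hh T N i j (t + c j) := by
    intro c
    rw [← integral_finsetSum]
    · refine integral_congr_ae (Eventually.of_forall fun t => ?_)
      change (ff t : ℂ) * (∏ j : Fin n, DN N (t + c j) - ∏ j : Fin n, ((L : ℂ) * P1 N (t + c j))) =
        ∑ i, (ff t : ℂ) * ∏ j : Fin n, hh T N i j (t + c j)
      rw [tele, Finset.mul_sum]
      rfl
    · intro i _
      have h2 : Continuous fun t : ℝ => (ff t : ℂ) * ∏ j : Fin n, hh T N i j (t + c j) :=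
        (Complex.continuous_ofReal.comp ff_cont).mul
          (continuous_finsetProd _ fun j _ => (hh_cont T N i j).comp (by fun_prop))
      exact h2.integrableOn_Icc
  have hci : ∀ i : Fin n, Integrable (fun c : Fin n → ℝ =>
      ‖∫ t in Icc a T, (ff t : ℂ) * ∏ j : Fin n, hh T N i j (t + c j)‖) (mB n 0 U) := by
    intro i
    exact mB_int (h2 n a T (Icc a T) (fun t => (ff t : ℂ)) (hh T N i) haT measurableSet_Icc (Subset.refl _)
      (ff_Wb a T) (hh_cont T N i)).norm 0 U
  calc ∫ c, ‖∫ t in Icc a T, (ff t : ℂ) * (∏ j : Fin n, DN N (t + c j) -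
        ∏ j : Fin n, ((L : ℂ) * P1 N (t + c j)))‖ ∂(mB n 0 U)
      ≤ ∫ c, ∑ i, ‖∫ t in Icc a T, (ff t : ℂ) * ∏ j : Fin n, hh T N i j (t + c j)‖ ∂(mB n 0 U) := by
        refine integral_mono_of_nonneg (Eventually.of_forall fun c => norm_nonneg _)
          (integrable_finsetSum _ fun i _ => hci i) (Eventually.of_forall fun c => ?_)
        change ‖∫ t in Icc a T, (ff t : ℂ) * (∏ j : Fin n, DN N (t + c j) -
          ∏ j : Fin n, ((L : ℂ) * P1 N (t + c j)))‖ ≤ _
        rw [hdec c]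
        exact norm_sum_le _ _
    _ = ∑ i, ∫ c, ‖∫ t in Icc a T, (ff t : ℂ) * ∏ j : Fin n, hh T N i j (t + c j)‖ ∂(mB n 0 U) :=
        integral_finsetSum _ fun i _ => hci i
    _ ≤ ∑ _i : Fin n, C2 * √C1 ^ n * (l ^ (2 * n) * r * L ^ n * T * U ^ n) := Finset.sum_le_sum fun i _ => key i
    _ = n * (C2 * √C1 ^ n * (l ^ (2 * n) * r * L ^ n * T * U ^ n)) := by
        rw [Finset.sum_const, Finset.card_univ, Fintype.card_fin, nsmul_eq_mul]
    _ ≤ (n + 1) * (C2 * √C1 ^ n * (l ^ (2 * n) * r * L ^ n * T * U ^ n)) := by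
        have : (0:ℝ) ≤ C2 * √C1 ^ n * (l ^ (2 * n) * r * L ^ n * T * U ^ n) := by positivity
        gcongr
        linarith
    _ = (n + 1) * (C2 * √C1 ^ n) * l ^ (2 * n) * r * L ^ n * T * U ^ n := by ring

end

end Pool.Agent.W2helper63.PZ
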