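import Pool.Agent.W2helper63.PZ.Led
import Pool.Agent.N879.PZ.Aa1
import Pool.Agent.N879.PZ.Afx
import Pool.Agent.N879.PZ.Asm4
import Pool.Agent.N879.PZ.Crd
import Pool.Agent.N879.PZ.Ctg
import Pool.Agent.N879.PZ.Eul1
import Pool.Agent.N879.PZ.Eut1
import Pool.Agent.N879.PZ.Gcm
import Pool.Agent.N879.PZ.Ker
import Pool.Agent.N879.PZ.Kh
import Pool.Agent.N879.PZ.Kl
import Pool.Agent.N879.PZ.Lb1
import Pool.Agent.N879.PZ.Lc
import Pool.Agent.N879.PZ.Loc1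
import Pool.Agent.N879.PZ.Lt
import Pool.Agent.N879.PZ.M4l
import Pool.Agent.N879.PZ.Msq
import Pool.Agent.N879.PZ.Sml
import Pool.Agent.N879.PZ.Telc
import Pool.Agent.N879.PZ.Tw
import Pool.Agent.N879.PZ.Win
import Pool.Agent.N879.PZ.Ze1

set_option autoImplicit false

/-! Project PZ: all parts together. -/

namespace Pool.Agent.W2helper63.PZ

open Pool.Agent.N879.PZ

theorem win : S_WIN := t_WIN t_LC
theorem m4l : S_M4L := t_M4L t_AFX t_CRD t_LT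
theorem gcm : S_GCM := t_GCM m4l
theorem tw : S_TW := t_TW t_AFX t_CRD
theorem ker : S_KER := t_KER t_AFX (t_KH t_CRD t_LC t_LT) t_KL
theorem led : S_LED := t_LED t_FUB t_CTG win tw
theorem aa1 : S_AA1 := t_AA1 t_LOC1

theorem mean2 : S_MEAN2 :=
  t_MEAN2 ker t_TELC t_CTG m4l win gcm (t_SML t_FUB m4l) (t_GCD t_FUB m4l win gcm) led (t_MSQ tw)

theorem main2 : S_MAIN2 := t_MAIN2 t_CTG mean2 (t_EUL1 t_LOC1 (t_EUT1 t_LSM1)) (t_LB1 t_LOC1) (t_ZE1 aa1)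

end Pool.Agent.W2helper63.PZ
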